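import Pool.Agent.Lib.P99994e.Final

/-!
The finite cycles of the original Collatz permutation with at most ten local maxima.
-/

set_option autoImplicit false

namespace Pool.Agent.Results.MP_99994e_nt.FewPeaks

open Function Pool.Agent.Lib.P99994e

/-- A finite cycle of `P` with at most ten elements `≡ 3 (mod 6)` (local maxima) is one of the
four known ones. -/
theorem result (x : ℕ) (hx : 0 < x) (hfin : x ∈ periodicPts P) (ht : peaksOf x ≤ 10) :
    x ∈ ({1, 2, 3, 4, 5, 7, 9, 6, 44, 59, 79, 105, 70, 93, 62, 83, 111, 74, 99, 66} : Finset ℕ) :=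
  few_peaks x hx (minimalPeriod_pos_of_mem_periodicPts hfin) ht

end Pool.Agent.Results.MP_99994e_nt.FewPeaks
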