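import Pool.Agent.Lib.CPM.FinalA2

/-!
# Congruence permutations without infinite orbits, and with infinitely many

The set of tables of permutations of the positive integers, affine on residue classes, all of whose orbits are finite is
as complicated as a `∀∃` statement can be.
-/

set_option autoImplicit false

namespace Pool.Agent.Results.MP_99994e_nt.InfiniteOrbits

/-- The map of the table `L = [(a_1, b_1), ..., (a_m, b_m)]` on the positive integers: `n = m k + r` with `k ≥ 0`,
`1 ≤ r ≤ m` goes to `a_r k + b_r`. -/
def tableMap (L : List (ℕ × ℕ)) (n : ℕ) : ℕ :=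
  (L.getD ((n - 1) % L.length) (0, 0)).1 * ((n - 1) / L.length) + (L.getD ((n - 1) % L.length) (0, 0)).2

/-- For every recursively enumerable relation `R` there are computable tables `L x` of permutations of the positive integers
such that all orbits of the permutation of `L x` are finite if `R x y` for all `y`, and otherwise it has infinitely many
infinite orbits (`s 0, s 1, ...` lie on pairwise different infinite orbits). -/
theorem result (R : ℕ → ℕ → Prop) (hR : REPred fun p : ℕ × ℕ => R p.1 p.2) :
    ∃ L : ℕ → List (ℕ × ℕ), Computable L ∧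
      ∀ x, Set.BijOn (tableMap (L x)) {n | 0 < n} {n | 0 < n} ∧
        ((∀ y, R x y) → ∀ n, 0 < n → ∃ k, 0 < k ∧ (tableMap (L x))^[k] n = n) ∧
        ((¬ ∀ y, R x y) → ∃ s : ℕ → ℕ, (∀ i, 0 < s i) ∧
          ∀ i j k, (tableMap (L x))^[k] (s i) = s j → k = 0 ∧ i = j) :=
  CPM.finalA2 R hR

end Pool.Agent.Results.MP_99994e_nt.InfiniteOrbits
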