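import Pool.Agent.Lib.P99994e.Final

/-!
Effective finiteness of the finite cycles of the original Collatz permutation with a given number
of local maxima.
-/

set_option autoImplicit false

namespace Pool.Agent.Results.MP_99994e_nt.PeakBound

open Function Pool.Agent.Lib.P99994e

/-- Let `x` lie on a finite cycle of `P` with `t` elements `≡ 3 (mod 6)` (these are the local
maxima of the cycle). Then the cycle has at most `400000 (t+1) (8/5)^t` elements, and
`x ≤ exp (400000 (t+1) (8/5)^t)`. -/
theorem result (x : ℕ) (hx : 0 < x) (hfin : x ∈ periodicPts P) :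
    (minimalPeriod P x : ℝ) ≤ 400000 * (peaksOf x + 1) * (8 / 5) ^ peaksOf x ∧
      (x : ℝ) ≤ Real.exp (400000 * (peaksOf x + 1) * (8 / 5) ^ peaksOf x) :=
  effective x hx (minimalPeriod_pos_of_mem_periodicPts hfin)

end Pool.Agent.Results.MP_99994e_nt.PeakBound
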